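import Pool.Agent.Helper94.GA.Goals

set_option autoImplicit false

namespace Pool.Agent.Helper65.GA

open Finset Pool.Agent.Helper94.GA

variable {ι : Type} [Fintype ι] [DecidableEq ι]

/-- the sign of a bit -/
noncomputable def sg (δ : ι → Bool) (l : ι) : ℂ := if δ l then (1 : ℂ) else -1

lemma sg_sq (δ : ι → Bool) (l : ι) : sg δ l * sg δ l = 1 := by
  unfold sg
  split_ifs <;> norm_num

lemma orth_ne (l l' : ι) (h : l ≠ l') : ∑ δ : ι → Bool, sg δ l * sg δ l' = 0 := by
  refine Finset.sum_involution (fun δ _ => Function.update δ l (!δ l)) ?_ ?_ ?_ ?_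
  · intro δ _
    have h1 : sg (Function.update δ l (!δ l)) l = - sg δ l := by
      unfold sg
      rw [Function.update_self]
      cases δ l <;> simp
    have h2 : sg (Function.update δ l (!δ l)) l' = sg δ l' := by
      unfold sg
      rw [Function.update_of_ne (Ne.symm h)]
    rw [h1, h2]
    ring
  · intro δ _ _ he
    have := congrFun he l
    rw [Function.update_self] at this
    cases hd : δ l <;> rw [hd] at this <;> simp at this
  · intro δ _
    exact mem_univ _
  · intro δ _
    simp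

lemma orth (l l' : ι) :
    ∑ δ : ι → Bool, sg δ l * sg δ l' = if l = l' then (2 : ℂ) ^ (Fintype.card ι) else 0 := by
  split_ifs with h
  · subst h
    simp only [sg_sq, sum_const, card_univ, Fintype.card_fun, Fintype.card_bool, nsmul_eq_mul,
      mul_one]
    push_cast
    rfl
  · exact orth_ne l l' h

lemma centred (z : ι → ℂ) (s : Finset ι) (δ : ι → Bool) :
    dsum z s δ - (1 / 2) * ∑ l ∈ s, z l = (1 / 2) * ∑ l ∈ s, sg δ l * z l := by
  unfold dsum
  rw [mul_sum, mul_sum, ← sum_sub_distrib]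
  refine sum_congr rfl fun l _ => ?_
  unfold sg
  split_ifs <;> ring

lemma sg_conj (δ : ι → Bool) (l : ι) : (starRingEnd ℂ) (sg δ l) = sg δ l := by
  unfold sg
  split_ifs <;> simp

theorem VAR : VAR_stmt := by
  intro ι _ _ z s
  refine ⟨?_, ?_⟩
  · have key : ((∑ δ : ι → Bool, ‖dsum z s δ - (1 / 2) * ∑ l ∈ s, z l‖ ^ 2 : ℝ) : ℂ) =
        (((2 : ℝ) ^ (Fintype.card ι) * ((1 / 4) * ∑ l ∈ s, ‖z l‖ ^ 2) : ℝ) : ℂ) := by
      push_cast
      have h1 : ∀ δ : ι → Bool,
          (‖dsum z s δ - (1 / 2) * ∑ l ∈ s, z l‖ : ℂ) ^ 2 =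
            ∑ l ∈ s, ∑ l' ∈ s, (1 / 4) * (z l * (starRingEnd ℂ) (z l')) * (sg δ l * sg δ l') := by
        intro δ
        rw [← Complex.mul_conj', centred, map_mul, map_sum]
        simp only [map_mul, sg_conj]
        have h2 : (starRingEnd ℂ) (1 / 2 : ℂ) = 1 / 2 := by
          rw [map_div₀, map_one, map_ofNat]
        rw [h2]
        have h3 : (1 / 2 : ℂ) * ∑ l ∈ s, sg δ l * z l *
            1 = (1 / 2 : ℂ) * ∑ l ∈ s, sg δ l * z l := by simp
        calc (1 / 2 : ℂ) * (∑ l ∈ s, sg δ l * z l) *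
              (1 / 2 * ∑ l ∈ s, sg δ l * (starRingEnd ℂ) (z l))
            = (1 / 4) * ((∑ l ∈ s, sg δ l * z l) *
                (∑ l ∈ s, sg δ l * (starRingEnd ℂ) (z l))) := by ring
          _ = _ := by
              rw [sum_mul_sum, mul_sum]
              refine sum_congr rfl fun l _ => ?_
              rw [mul_sum]
              refine sum_congr rfl fun l' _ => ?_
              ring
      rw [sum_congr rfl fun δ _ => h1 δ, sum_comm]
      have h4 : ∀ l ∈ s, ∑ δ : ι → Bool, ∑ l' ∈ s,
          (1 / 4) * (z l * (starRingEnd ℂ) (z l')) * (sg δ l * sg δ l') =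
          (2 : ℂ) ^ (Fintype.card ι) * ((1 / 4) * (‖z l‖ : ℂ) ^ 2) := by
        intro l hl
        rw [sum_comm]
        have h5 : ∀ l' ∈ s, ∑ δ : ι → Bool,
            (1 / 4) * (z l * (starRingEnd ℂ) (z l')) * (sg δ l * sg δ l') =
            if l = l' then (2 : ℂ) ^ (Fintype.card ι) * ((1 / 4) * (‖z l‖ : ℂ) ^ 2) else 0 := by
          intro l' _
          rw [← mul_sum, orth]
          split_ifs with h
          · subst h
            rw [Complex.mul_conj']
            ring
          · rw [mul_zero]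
        rw [sum_congr rfl h5, sum_ite_eq, if_pos hl]
      rw [sum_congr rfl h4, ← mul_sum, ← mul_sum]
    exact_mod_cast key
  · intro k hk
    have h1 : ∀ δ : ι → Bool, (if δ k then (1 : ℂ) else -1) *
        (dsum z s δ - (1 / 2) * ∑ l ∈ s, z l) =
        ∑ l ∈ s, (1 / 2) * z l * (sg δ k * sg δ l) := by
      intro δ
      rw [centred]
      have h2 : (if δ k then (1 : ℂ) else -1) = sg δ k := rfl
      rw [h2, mul_sum, mul_sum]
      refine sum_congr rfl fun l _ => ?_
      ring
    rw [sum_congr rfl fun δ _ => h1 δ, sum_comm]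
    have h5 : ∀ l ∈ s, ∑ δ : ι → Bool, (1 / 2) * z l * (sg δ k * sg δ l) =
        if k = l then (2 : ℂ) ^ (Fintype.card ι) * ((1 / 2) * z k) else 0 := by
      intro l _
      rw [← mul_sum, orth]
      split_ifs with h
      · subst h
        ring
      · rw [mul_zero]
    rw [sum_congr rfl h5, sum_ite_eq, if_pos hk]

end Pool.Agent.Helper65.GA
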